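import Mathlib
import Pool.Agent.U234.Amal.NoAmalgam

set_option autoImplicit false

/-!
MP_eea824_ag, Q1: disproof. Degree-preserving amalgamation of real zero polynomials in two shared
variables fails in degree four, already with one further variable on each side.

The two polynomials are
`p = ((1 + y)² - x₁²) ((1 - y)² - x₂²)` and
`q = (1 - x₁² - z²) (1 - x₂² - z²) - (1/4) z² (1 - 3 z + 3 z²)`.
-/

namespace Pool.Agent.Results.MP_eea824_ag.DegreeFour

open MvPolynomial Pool.Agent.U234.Amal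

/-- A real zero polynomial: whenever `f (t a) = 0` for a real point `a` and a complex number `t`,
the number `t` is real. -/
def RealZero {σ : Type} (f : MvPolynomial σ ℝ) : Prop :=
  ∀ (a : σ → ℝ) (t : ℂ), aeval (fun i => t * (a i : ℂ)) f = 0 → t.im = 0

/-- The amalgamation statement of the problem for fixed `d`, `m`, `n`. The variables `x` are
indexed by `Fin 2`, the variables `y` by `Fin m` and the variables `z` by `Fin n`. -/
def Amalgamation (d m n : ℕ) : Prop :=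
  ∀ (p : MvPolynomial (Fin 2 ⊕ Fin m) ℝ) (q : MvPolynomial (Fin 2 ⊕ Fin n) ℝ),
    RealZero p → RealZero q → p.totalDegree ≤ d → q.totalDegree ≤ d →
    (aeval (Sum.elim X fun _ => 0) p : MvPolynomial (Fin 2) ℝ) =
      aeval (Sum.elim X fun _ => 0) q →
    ∃ r : MvPolynomial (Fin 2 ⊕ (Fin m ⊕ Fin n)) ℝ, RealZero r ∧ r.totalDegree ≤ d ∧
      (aeval (Sum.elim (fun i => X (Sum.inl i))
        (Sum.elim (fun j => X (Sum.inr j)) fun _ => 0)) r : MvPolynomial (Fin 2 ⊕ Fin m) ℝ) = p ∧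
      (aeval (Sum.elim (fun i => X (Sum.inl i))
        (Sum.elim (fun _ => 0) fun k => X (Sum.inr k))) r : MvPolynomial (Fin 2 ⊕ Fin n) ℝ) = q

/-- The polynomial `p = ((1 + y)² - x₁²) ((1 - y)² - x₂²)`, with `y` the first of the `y`s. -/
noncomputable def pp (m : ℕ) : MvPolynomial (Fin 2 ⊕ Fin (m + 1)) ℝ :=
  ((1 + X (Sum.inr 0)) ^ 2 - X (Sum.inl 0) ^ 2) * ((1 - X (Sum.inr 0)) ^ 2 - X (Sum.inl 1) ^ 2)

/-- The polynomial `q = (1 - x₁² - z²) (1 - x₂² - z²) - (1/4) z² (1 - 3 z + 3 z²)`, with `z` the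
first of the `z`s. -/
noncomputable def qq (n : ℕ) : MvPolynomial (Fin 2 ⊕ Fin (n + 1)) ℝ :=
  (1 - X (Sum.inl 0) ^ 2 - X (Sum.inr 0) ^ 2) * (1 - X (Sum.inl 1) ^ 2 - X (Sum.inr 0) ^ 2) -
    C (1 / 4) * (X (Sum.inr 0) ^ 2 * (1 - C 3 * X (Sum.inr 0) + C 3 * X (Sum.inr 0) ^ 2))

/-- A real affine function of `t` that is not identically zero has only real zeros. -/
lemma im_of_linear (c : ℝ) (t : ℂ) (h : 1 + t * (c : ℂ) = 0) : t.im = 0 := by
  have h1 := congrArg Complex.im h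
  have h2 := congrArg Complex.re h
  simp at h1 h2
  rcases h1 with h1 | h1
  · exact h1
  · rw [h1] at h2
    simp at h2

lemma realZero_pp (m : ℕ) : RealZero (pp m) := by
  intro a t h
  have e : aeval (fun i => t * (a i : ℂ)) (pp m) =
      (1 + t * ((a (Sum.inr 0) - a (Sum.inl 0) : ℝ) : ℂ)) *
      (1 + t * ((a (Sum.inr 0) + a (Sum.inl 0) : ℝ) : ℂ)) *
      (1 + t * ((-a (Sum.inr 0) - a (Sum.inl 1) : ℝ) : ℂ)) *
      (1 + t * ((-a (Sum.inr 0) + a (Sum.inl 1) : ℝ) : ℂ)) := by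
    simp only [pp, map_add, map_sub, map_mul, map_pow, map_one, aeval_X]
    push_cast
    ring
  rw [e] at h
  rcases mul_eq_zero.mp h with h | h
  · rcases mul_eq_zero.mp h with h | h
    · rcases mul_eq_zero.mp h with h | h
      · exact im_of_linear _ _ h
      · exact im_of_linear _ _ h
    · exact im_of_linear _ _ h
  · exact im_of_linear _ _ h

/-- The quartic attached to `q` in a direction with `b ≠ 0` has only real roots. -/
lemma quartic_real (A B b : ℝ) (hb : b ≠ 0) (hA : b ^ 2 ≤ A) (hB : b ^ 2 ≤ B) (t : ℂ)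
    (ht : t ^ 4 + ((0 : ℝ) : ℂ) * t ^ 3 + ((-A - B - b ^ 2 / 4 : ℝ) : ℂ) * t ^ 2 +
      ((3 / 4 * b ^ 3 : ℝ) : ℂ) * t + ((A * B - 3 / 4 * b ^ 4 : ℝ) : ℂ) = 0) : t.im = 0 := by
  have hb2 : 0 < b ^ 2 := by positivity
  have hApos : 0 < A := lt_of_lt_of_le hb2 hA
  -- the real function
  obtain ⟨g, hg⟩ : ∃ g : ℝ → ℝ, g = fun T => T ^ 4 + 0 * T ^ 3 + (-A - B - b ^ 2 / 4) * T ^ 2 +
      (3 / 4 * b ^ 3) * T + (A * B - 3 / 4 * b ^ 4) := ⟨_, rfl⟩
  have hgc : Continuous g := by rw [hg]; fun_prop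
  have hg' : ∀ T, g T = (T ^ 2 - A) * (T ^ 2 - B) - b ^ 2 / 4 * (T ^ 2 - 3 * b * T + 3 * b ^ 2) := by
    intro T
    rw [hg]
    ring
  obtain ⟨s, hs⟩ : ∃ s : ℝ, s = Real.sqrt A := ⟨_, rfl⟩
  have hs2 : s ^ 2 = A := by rw [hs]; exact Real.sq_sqrt hApos.le
  have hspos : 0 < s := by rw [hs]; exact Real.sqrt_pos.mpr hApos
  have hneg : ∀ T : ℝ, T ^ 2 = A → g T < 0 := by
    intro T hT
    rw [hg' T, hT]
    have h1 : 0 < T ^ 2 - 3 * b * T + 3 * b ^ 2 := by
      nlinarith [sq_nonneg (T - 3 / 2 * b)]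
    rw [hT] at h1
    nlinarith [mul_pos hb2 h1]
  have h0 : 0 < g 0 := by
    rw [hg' 0]
    have hAB : b ^ 2 * b ^ 2 ≤ A * B := mul_le_mul hA hB hb2.le hApos.le
    nlinarith [mul_pos hb2 hb2]
  have hBpos : 0 < B := lt_of_lt_of_le hb2 hB
  obtain ⟨M, hM⟩ : ∃ M : ℝ, M = Real.sqrt (A + B + b ^ 2) := ⟨_, rfl⟩
  have hM2 : M ^ 2 = A + B + b ^ 2 := by rw [hM]; exact Real.sq_sqrt (by positivity)
  have hMpos : 0 < M := by rw [hM]; exact Real.sqrt_pos.mpr (by positivity)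
  have hMs : s < M := by nlinarith
  have hMbig : 0 < g M := by
    rw [hg' M]
    have e1 : -3 * b * M ≤ 3 / 2 * (b ^ 2 + M ^ 2) := by nlinarith [sq_nonneg (b + M)]
    have hAB : b ^ 2 * b ^ 2 ≤ A * B := mul_le_mul hA hB hb2.le hApos.le
    have e2 : b ^ 2 / 4 * (M ^ 2 - 3 * b * M + 3 * b ^ 2) ≤
        b ^ 2 / 4 * (5 / 2 * M ^ 2 + 9 / 2 * b ^ 2) :=
      mul_le_mul_of_nonneg_left (by linarith) (by positivity)
    rw [hM2] at e2 ⊢
    nlinarith [mul_pos hb2 hb2, mul_pos hb2 hApos, mul_pos hb2 hBpos]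
  have r1 : ∃ T, T ∈ Set.Ioo (-s) 0 ∧ g T = 0 := by
    have := intermediate_value_Ioo (f := g) (a := -s) (b := 0) (by linarith) hgc.continuousOn
    obtain ⟨T, hT, hT0⟩ := this (show (0 : ℝ) ∈ Set.Ioo (g (-s)) (g 0) from
      ⟨hneg _ (by rw [neg_sq, hs2]), h0⟩)
    exact ⟨T, hT, hT0⟩
  have r2 : ∃ T, T ∈ Set.Ioo 0 s ∧ g T = 0 := by
    have := intermediate_value_Ioo' (f := g) (a := 0) (b := s) (by linarith) hgc.continuousOn
    obtain ⟨T, hT, hT0⟩ := this (show (0 : ℝ) ∈ Set.Ioo (g s) (g 0) from ⟨hneg _ hs2, h0⟩)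
    exact ⟨T, hT, hT0⟩
  have r3 : ∃ T, T ∈ Set.Ioo s M ∧ g T = 0 := by
    have := intermediate_value_Ioo (f := g) (a := s) (b := M) hMs.le hgc.continuousOn
    obtain ⟨T, hT, hT0⟩ := this (show (0 : ℝ) ∈ Set.Ioo (g s) (g M) from ⟨hneg _ hs2, hMbig⟩)
    exact ⟨T, hT, hT0⟩
  obtain ⟨T1, ⟨h1a, h1b⟩, h1⟩ := r1
  obtain ⟨T2, ⟨h2a, h2b⟩, h2⟩ := r2
  obtain ⟨T3, ⟨h3a, h3b⟩, h3⟩ := r3
  rw [hg] at h1 h2 h3
  exact real_of_three_roots 0 (-A - B - b ^ 2 / 4) (3 / 4 * b ^ 3) (A * B - 3 / 4 * b ^ 4)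
    T1 T2 T3 (by linarith) (by linarith) (by linarith) h1 h2 h3 t ht

lemma realZero_qq (n : ℕ) : RealZero (qq n) := by
  intro a t h
  obtain ⟨a1, ha1⟩ : ∃ a1 : ℝ, a1 = a (Sum.inl 0) := ⟨_, rfl⟩
  obtain ⟨a2, ha2⟩ : ∃ a2 : ℝ, a2 = a (Sum.inl 1) := ⟨_, rfl⟩
  obtain ⟨b, hb⟩ : ∃ b : ℝ, b = a (Sum.inr 0) := ⟨_, rfl⟩
  have e : aeval (fun i => t * (a i : ℂ)) (qq n) =
      (1 - t ^ 2 * (a1 : ℂ) ^ 2 - t ^ 2 * (b : ℂ) ^ 2) *
      (1 - t ^ 2 * (a2 : ℂ) ^ 2 - t ^ 2 * (b : ℂ) ^ 2) -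
      1 / 4 * (t ^ 2 * (b : ℂ) ^ 2 * (1 - 3 * (t * b) + 3 * (t ^ 2 * (b : ℂ) ^ 2))) := by
    simp only [qq, map_add, map_sub, map_mul, map_pow, map_one, aeval_X, aeval_C,
      Complex.coe_algebraMap, ← ha1, ← ha2, ← hb]
    push_cast
    ring
  rw [e] at h
  by_cases hb0 : b = 0
  · rw [hb0] at h
    have h' : (1 + t * ((a1 : ℝ) : ℂ)) * (1 + t * ((-a1 : ℝ) : ℂ)) *
        ((1 + t * ((a2 : ℝ) : ℂ)) * (1 + t * ((-a2 : ℝ) : ℂ))) = 0 := by
      rw [← h]
      push_cast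
      ring
    rcases mul_eq_zero.mp h' with h | h
    · rcases mul_eq_zero.mp h with h | h
      · exact im_of_linear _ _ h
      · exact im_of_linear _ _ h
    · rcases mul_eq_zero.mp h with h | h
      · exact im_of_linear _ _ h
      · exact im_of_linear _ _ h
  · by_cases ht0 : t = 0
    · rw [ht0]; simp
    · have hinv : (t⁻¹).im = 0 := by
        apply quartic_real (a1 ^ 2 + b ^ 2) (a2 ^ 2 + b ^ 2) b hb0
          (by nlinarith [sq_nonneg a1]) (by nlinarith [sq_nonneg a2]) t⁻¹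
        have ht4 : t ^ 4 ≠ 0 := pow_ne_zero _ ht0
        apply (mul_eq_zero.mp (?_ : t ^ 4 * _ = 0)).resolve_left ht4
        rw [← h]
        push_cast
        field_simp
        ring
      rw [Complex.inv_im] at hinv
      have hns : Complex.normSq t ≠ 0 := by
        rwa [Ne, Complex.normSq_eq_zero]
      rw [div_eq_zero_iff] at hinv
      rcases hinv with h | h
      · linarith
      · exact absurd h hns

lemma totalDegree_X_pow_le {σ : Type} (i : σ) (k : ℕ) :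
    (X i ^ k : MvPolynomial σ ℝ).totalDegree ≤ k := by
  have := totalDegree_pow (X i : MvPolynomial σ ℝ) k
  rw [totalDegree_X] at this
  omega

lemma totalDegree_pp_le (m : ℕ) : (pp m).totalDegree ≤ 4 := by
  unfold pp
  have h1 : ((1 : MvPolynomial (Fin 2 ⊕ Fin (m + 1)) ℝ) + X (Sum.inr 0)).totalDegree ≤ 1 :=
    (totalDegree_add _ _).trans (by rw [totalDegree_X]; simp)
  have h1' : ((1 : MvPolynomial (Fin 2 ⊕ Fin (m + 1)) ℝ) - X (Sum.inr 0)).totalDegree ≤ 1 :=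
    (totalDegree_sub _ _).trans (by rw [totalDegree_X]; simp)
  have h2 : (((1 : MvPolynomial (Fin 2 ⊕ Fin (m + 1)) ℝ) + X (Sum.inr 0)) ^ 2).totalDegree ≤ 2 :=
    (totalDegree_pow _ _).trans (by omega)
  have h2' : (((1 : MvPolynomial (Fin 2 ⊕ Fin (m + 1)) ℝ) - X (Sum.inr 0)) ^ 2).totalDegree ≤ 2 :=
    (totalDegree_pow _ _).trans (by omega)
  refine (totalDegree_mul _ _).trans (Nat.add_le_add (b := 2) (d := 2) ?_ ?_)
  · exact (totalDegree_sub _ _).trans (max_le h2 (totalDegree_X_pow_le _ _))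
  · exact (totalDegree_sub _ _).trans (max_le h2' (totalDegree_X_pow_le _ _))

lemma totalDegree_qq_le (n : ℕ) : (qq n).totalDegree ≤ 4 := by
  unfold qq
  have h1 : ∀ i : Fin 2, ((1 : MvPolynomial (Fin 2 ⊕ Fin (n + 1)) ℝ) - X (Sum.inl i) ^ 2 -
      X (Sum.inr 0) ^ 2).totalDegree ≤ 2 := fun i =>
    (totalDegree_sub _ _).trans (max_le ((totalDegree_sub _ _).trans
      (max_le (by simp) (totalDegree_X_pow_le _ _))) (totalDegree_X_pow_le _ _))
  have h2 : ((C 3 : MvPolynomial (Fin 2 ⊕ Fin (n + 1)) ℝ) * X (Sum.inr 0)).totalDegree ≤ 2 :=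
    (totalDegree_mul _ _).trans (by rw [totalDegree_C, totalDegree_X]; omega)
  have h3 : ((C 3 : MvPolynomial (Fin 2 ⊕ Fin (n + 1)) ℝ) * X (Sum.inr 0) ^ 2).totalDegree ≤ 2 :=
    (totalDegree_mul _ _).trans (by
      rw [totalDegree_C, zero_add]; exact totalDegree_X_pow_le _ _)
  have h4 : ((1 : MvPolynomial (Fin 2 ⊕ Fin (n + 1)) ℝ) - C 3 * X (Sum.inr 0) +
      C 3 * X (Sum.inr 0) ^ 2).totalDegree ≤ 2 :=
    (totalDegree_add _ _).trans (max_le ((totalDegree_sub _ _).trans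
      (max_le (by simp) h2)) h3)
  have h5 : ((X (Sum.inr 0) : MvPolynomial (Fin 2 ⊕ Fin (n + 1)) ℝ) ^ 2 *
      (1 - C 3 * X (Sum.inr 0) + C 3 * X (Sum.inr 0) ^ 2)).totalDegree ≤ 4 :=
    (totalDegree_mul _ _).trans (Nat.add_le_add (b := 2) (d := 2) (totalDegree_X_pow_le _ _) h4)
  refine (totalDegree_sub _ _).trans (max_le ?_ ?_)
  · exact (totalDegree_mul _ _).trans (Nat.add_le_add (b := 2) (d := 2) (h1 0) (h1 1))
  · exact (totalDegree_mul _ _).trans (by rw [totalDegree_C, zero_add]; exact h5)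

lemma agree (m n : ℕ) : (aeval (Sum.elim X fun _ => 0) (pp m) : MvPolynomial (Fin 2) ℝ) =
    aeval (Sum.elim X fun _ => 0) (qq n) := by
  simp only [pp, qq, map_add, map_sub, map_mul, map_pow, map_one, aeval_X, aeval_C,
    Sum.elim_inl, Sum.elim_inr]
  ring

/-- The substitution of the first four variables. -/
noncomputable def sub4 (m n : ℕ) :
    Fin 2 ⊕ (Fin (m + 1) ⊕ Fin (n + 1)) → MvPolynomial (Fin 4) ℝ :=
  Sum.elim ![X 0, X 1] (Sum.elim (fun j => if j = 0 then X 2 else 0)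
    (fun k => if k = 0 then X 3 else 0))

lemma totalDegree_sub4_le (m n : ℕ) (i : Fin 2 ⊕ (Fin (m + 1) ⊕ Fin (n + 1))) :
    (sub4 m n i).totalDegree ≤ 1 := by
  rcases i with i | j | k
  · fin_cases i <;> simp [sub4]
  · by_cases h : j = 0 <;> simp [sub4, h]
  · by_cases h : k = 0 <;> simp [sub4, h]

lemma not_amalgamation (m n : ℕ) : ¬ Amalgamation 4 (m + 1) (n + 1) := by
  intro h
  obtain ⟨r, hr, hdeg, hp, hq⟩ := h (pp m) (qq n) (realZero_pp m) (realZero_qq n)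
    (totalDegree_pp_le m) (totalDegree_qq_le n) (agree m n)
  apply no_amalgam (aeval (sub4 m n) r)
  · intro a t hat
    apply hr (fun i => eval a (sub4 m n i)) t
    rw [← hat]
    have e : (fun i => t * ((eval a (sub4 m n i) : ℝ) : ℂ)) =
        fun i => aeval (fun j => t * (a j : ℂ)) (sub4 m n i) := by
      funext i
      rcases i with i | j | k
      · fin_cases i <;> simp [sub4]
      · by_cases h : j = 0 <;> simp [sub4, h]
      · by_cases h : k = 0 <;> simp [sub4, h]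
    rw [e, ← comp_aeval_apply]
  · exact (totalDegree_aeval_le _ (totalDegree_sub4_le m n) r).trans hdeg
  · intro x hx
    have e1 : eval x (aeval (sub4 m n) r) = aeval (fun i => eval x (sub4 m n i)) r := by
      rw [← coe_aeval_eq_eval, RingHom.coe_coe, comp_aeval_apply]
    have e2 : aeval (Sum.elim ![x 0, x 1] (fun j : Fin (m + 1) => if j = 0 then x 2 else 0))
        (pp m) = aeval (fun i => eval x (sub4 m n i)) r := by
      rw [← hp, comp_aeval_apply]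
      congr 1
      congr 1
      funext i
      rcases i with i | j | k
      · fin_cases i <;> simp [sub4]
      · by_cases h : j = 0 <;> simp [sub4, h]
      · by_cases h : k = 0 <;> simp [sub4, h, hx]
    rw [e1, ← e2]
    simp [pp]
  · intro x hx
    have e1 : eval x (aeval (sub4 m n) r) = aeval (fun i => eval x (sub4 m n i)) r := by
      rw [← coe_aeval_eq_eval, RingHom.coe_coe, comp_aeval_apply]
    have e2 : aeval (Sum.elim ![x 0, x 1] (fun j : Fin (n + 1) => if j = 0 then x 3 else 0))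
        (qq n) = aeval (fun i => eval x (sub4 m n i)) r := by
      rw [← hq, comp_aeval_apply]
      congr 1
      congr 1
      funext i
      rcases i with i | j | k
      · fin_cases i <;> simp [sub4]
      · by_cases h : j = 0 <;> simp [sub4, h, hx]
      · by_cases h : k = 0 <;> simp [sub4, h]
    rw [e1, ← e2]
    simp [qq]

/-- Amalgamation fails in degree four as soon as there is one further variable on each side; in
particular the amalgamation statement of the problem is false. -/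
theorem result :
    (∀ m n : ℕ, 1 ≤ m → 1 ≤ n → ¬ Amalgamation 4 m n) ∧ ¬ ∀ d m n : ℕ, Amalgamation d m n := by
  have key : ∀ m n : ℕ, 1 ≤ m → 1 ≤ n → ¬ Amalgamation 4 m n := by
    intro m n hm hn
    obtain ⟨m', rfl⟩ : ∃ m', m = m' + 1 := ⟨m - 1, by omega⟩
    obtain ⟨n', rfl⟩ : ∃ n', n = n' + 1 := ⟨n - 1, by omega⟩
    exact not_amalgamation m' n'
  exact ⟨key, fun h => key 1 1 le_rfl le_rfl (h 4 1 1)⟩

end Pool.Agent.Results.MP_eea824_ag.DegreeFour
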